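import Pool.Agent.N211.TP4.Defs

/-!
# Hodge classes and Tate classes on the products `X ^ (n + 1) × A`: definitions
-/

open CategoryTheory AlgebraicGeometry

universe u

namespace Pool.Agent.N211.TP5

open Pool.Agent.H914 Pool.Agent.H914.VarClass Pool.Agent.Y121.AHS Pool.Agent.N211.TP2
open Pool.Agent.N211.TP4
open Pool.Agent.Y133.Half (pw)

variable {k : Type u} [Field k] {𝒱 : VarClass k} {ops : CycleOps 𝒱} (T : HodgeTheory ops)
  (E : Type) [Field E] [Algebra T.W.K E] (X A : 𝒱.Obj) (n : ℕ)

/-- The data for `X ^ (n + 1)` and `A`, with the Hodge classes on `X ^ (n + 1) × A` instead of the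
classes of algebraic cycles. -/
noncomputable def hodgeOps : ProdOps (PowH T E X n) (PowH T E A 0) (ProdH T E X A n) :=
  { prodOps T E X A n with
    cyc := fun j => {x | ∃ c, IsHodge T ((pw X n).prod A) j c ∧ x = emL T.W E c} }

/-- The exponent. -/
def productExponent (b : ℕ) : ℕ := exponent b * b ^ exponent b

end Pool.Agent.N211.TP5
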