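import Pool.Agent.N211.TP5.Defs
import Pool.Agent.N211.TP3.Main
import Pool.Agent.N211.TP4.Main
import Pool.Agent.N211.MO.Desc

/-!
# The Mumford-Tate conjecture from one product
-/

set_option linter.unusedSectionVars false

open CategoryTheory AlgebraicGeometry TensorProduct

universe u

namespace Pool.Agent.N211.TP5

open Module
open Pool.Agent.H914 Pool.Agent.H914.VarClass Pool.Agent.H914.VarClass.Obj
  Pool.Agent.H914.WeilCohomology
open Pool.Agent.Y121.AHS
open Pool.Agent.Y121.AH (hodgePred)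
open Pool.Agent.Y133.Half (pw ClassPred PH)
open Pool.Agent.N211.BT (emL_deg emL_map emL_mul mulB mulB_apply mapB mapB_apply)
open Pool.Agent.N211.TP2 Pool.Agent.N211.TP3 Pool.Agent.N211.TP4
open Pool.Agent.N211.MO (xL sl sl_xL xL_smul')

variable {k : Type u} [Field k] {𝒱 : VarClass k} {ops : CycleOps 𝒱} {T : HodgeTheory ops}
  {X A : 𝒱.Obj} {ψ : TP2.Bil T.W.K (T.W.H X)}
  {E : Type} [Field E] [Algebra T.W.K E] {Γ : Type} [Group Γ] [TopologicalSpace Γ] {χ : Γ → E}
  {ρ : ∀ n, Γ → PowH T E X n → PowH T E X n} {N : ℕ} {σA : Γ → PowH T E A 0 → PowH T E A 0}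
  {σP : Γ → ProdH T E X A N → ProdH T E X A N}

/-! ### Injectivity -/

/-- The classes with nonzero trace. -/
lemma xL_one_inj (hA : (1 : T.W.H A) ≠ 0) {Y : 𝒱.Obj} {x : HL T.W E Y}
    (hx : xL x (emL T.W E (1 : T.W.H A)) = 0) : x = 0 := by
  obtain ⟨D₀, hD₀, hHL, -⟩ := T.polar A
  obtain ⟨t, ht, ht0⟩ := exists_top hD₀ hHL hA
  obtain ⟨z₀, hz₀, hz₀'⟩ := ht
  have htg : t ∈ T.W.gr A (2 * A.dim) := by
    rw [← hz₀']
    exact T.W.cl_mem hz₀
  have hsl := sl_xL (E := E) (Y := Y) (PH.of' (by omega) htg) x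
  rw [hx, map_zero] at hsl
  have ht1 : algebraMap T.W.K E (T.W.tr A t) ≠ 0 := by
    rw [Ne, map_eq_zero]
    exact ht0
  exact (smul_eq_zero.1 hsl.symm).resolve_left ht1

/-- The cohomology of `A` is not zero. -/
lemma one_ne (h : IsGalois (cohOps T E ψ) χ ρ)
    (hP : HasDualLines E (hodgeOps T E X A N) χ (ρ N) σA σP) [Nontrivial (T.W.H (pw X N))] :
    (1 : T.W.H A) ≠ 0 := by
  intro h0
  have hu : (emL T.W E (1 : T.W.H (pw X N))) ≠ 0 := by
    intro h2
    exact one_ne_zero (Y121.AH.em_injective (W := T.W) (L := E) h2)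
  obtain ⟨D, m, d', y, hy, -⟩ := hP.line ⊤ (fun _ => 1) 0 (emL T.W E (1 : T.W.H (pw X N))) hu
    (emL_deg (T.W.one_mem _)) (isEigen_one.2 ⟨inferInstance, isOpen_univ, fun g _ => by
      change rep h N g (emL T.W E (1 : T.W.H (pw X N))) =
        (1 : E) • (emL T.W E (1 : T.W.H (pw X N)) : HL T.W E (pw X N))
      rw [one_smul]
      have h2 : ∀ x : HL T.W E (pw X N), mulB T.W E _ x (emL T.W E (1 : T.W.H (pw X N))) = x :=
        fun x => mul_one (show E ⊗[T.W.K] T.W.H (pw X N) from x)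
      have h2' : ∀ x : HL T.W E (pw X N), mulB T.W E _ (emL T.W E (1 : T.W.H (pw X N))) x = x :=
        fun x => one_mul (show E ⊗[T.W.K] T.W.H (pw X N) from x)
      have h6 : ∀ x y : HL T.W E (pw X N), rep h N g (mulB T.W E _ x y) =
          mulB T.W E _ (rep h N g x) (rep h N g y) := fun x y => h.mul N g x y
      have h3 : ∀ y : HL T.W E (pw X N),
          mulB T.W E _ (rep h N g (emL T.W E (1 : T.W.H (pw X N)))) y = y := by
        intro y
        have h4 : y = rep h N g (rep h N g⁻¹ y) := by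
          rw [← Module.End.mul_apply, ← map_mul, mul_inv_cancel, map_one, Module.End.one_apply]
        conv_lhs => rw [h4]
        rw [← h6, h2', ← h4]
      have h5 := h3 (emL T.W E (1 : T.W.H (pw X N)))
      rw [h2] at h5
      exact h5⟩)
  apply hy
  have h3 : ∀ y : E ⊗[T.W.K] T.W.H A, y = 0 := by
    intro y
    have h4 : (1 : E ⊗[T.W.K] T.W.H A) = 0 := by
      rw [Algebra.TensorProduct.one_def, h0, TensorProduct.tmul_zero]
    rw [← mul_one y, h4, mul_zero]
  exact h3 y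

/-- **Hodge classes are Tate classes on the power if they are on the product.** -/
lemma hit_of (h : IsGalois (cohOps T E ψ) χ ρ)
    (hP : HasDualLines E (hodgeOps T E X A N) χ (ρ N) σA σP)
    (hT : TateForProduct (hodgeOps T E X A N) χ σP) : HIT h N := by
  intro j c hc
  rcases subsingleton_or_nontrivial (T.W.H (pw X N)) with hs | hs
  · rw [Subsingleton.elim c 0, BT.emL_zero]
    exact isT_zero
  have hA := one_ne h hP
  have h1 : IsHodge T ((pw X N).prod A) j (T.W.map (fst (pw X N) A) c) :=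
    (hodgePred (toH T)).map (fst (pw X N) A) hc
  have h2 : xL (emL T.W E c) (emL T.W E (1 : T.W.H A)) =
      emL T.W E (T.W.map (fst (pw X N) A) c) := by
    rw [xL, mapB_apply, mapB_apply, ← emL_map, ← emL_map, mulB_apply, ← emL_mul, map_one, mul_one]
  obtain ⟨Δ, hΔ⟩ := (hT j (emL T.W E (T.W.map (fst (pw X N) A) c)) (emL_deg h1.1)).2
    (Submodule.subset_span ⟨_, h1, rfl⟩)
  obtain ⟨h3, h4, h5⟩ := isEigen_one.1 hΔ
  refine ⟨Δ, h3, h4, fun g hg => ?_⟩
  have h6 : xL (rep h N g (emL T.W E c)) (emL T.W E (1 : T.W.H A)) =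
      (χ g ^ j) • xL (emL T.W E c) (emL T.W E (1 : T.W.H A)) := by
    have h7 := hP.ext g (emL T.W E c) (emL T.W E (1 : T.W.H A))
    have h8 : σA g (emL T.W E (1 : T.W.H A)) = emL T.W E (1 : T.W.H A) := hP.one g
    rw [h8] at h7
    have h9 := h5 g hg
    have h10 : (hodgeOps T E X A N).ext (emL T.W E c) (emL T.W E (1 : T.W.H A)) =
        xL (emL T.W E c) (emL T.W E (1 : T.W.H A)) := rfl
    rw [h10, h2] at h7
    rw [h2]
    exact h7.symm.trans h9
  rw [← xL_smul'] at h6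
  have h7 : xL (rep h N g (emL T.W E c) - (χ g ^ j) • emL T.W E c)
      (emL T.W E (1 : T.W.H A)) = 0 := by
    rw [xL, map_sub, map_sub, LinearMap.sub_apply]
    exact sub_eq_zero.2 h6
  exact sub_eq_zero.1 (xL_one_inj hA h7)

/-- The Hodge classes on all powers are Tate classes. -/
theorem hit_all' {h : IsGalois (cohOps T E ψ) χ ρ} (hψ : TP2.IsPolarisation T X ψ)
    (hN : exponent (finrank T.W.K (T.W.H X)) ≤ N + 1) (hH : HIT h N) (n : ℕ) : HIT h n := by
  have h2 : N996.BP.Geo.expo (finrank T.W.K (T.W.H X)) - 1 ≤ N := by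
    have := expo_le (finrank T.W.K (T.W.H X))
    omega
  have h3 := N996.BP.Geo.mono_cd (T := toH T) (S := (hodgeTate h).csys)
    (S' := (hodgePred (toH T)).sys.csys X) h2 (hit_iff.1 hH)
  exact hit_iff.2 (N996.BP.Geo.bounded_c (T := toH T) hψ.conv.isPHS (hodgeTate h).csys le_hodge
    h3 n)

lemma setupH {h : IsGalois (cohOps T E ψ) χ ρ}
    {hf : ∀ n j z, (pw X n).IsCyc j z → ∃ Δ : Subgroup Γ, Δ.FiniteIndex ∧ ∀ g ∈ Δ,
      rep h n g (emL T.W E (T.W.cl (pw X n) z)) = twL (χ g) j (emL T.W E (T.W.cl (pw X n) z))}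
    (hP' : HasDualLines E (prodOps T E X A N) χ (ρ N) σA σP)
    (hT : TateForProduct (hodgeOps T E X A N) χ σP) :
    MO.Setup (toG h hf) A N (lA hP') (lP hP') OF
      fun j => {c | (hodgePred (toH T)).P ((pw X N).prod A) j c} where
  inf D D' hD hD' := by
    have := hD.1
    have := hD'.1
    exact ⟨inferInstance, hD.2.inter hD'.2⟩
  fin D hD := hD.1
  xp g x y := hP'.ext g x y
  hodge j c hc := hc
  cyc := by
    intro j c hc
    have hc' : IsHodge T ((pw X N).prod A) j c := hc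
    obtain ⟨D, h2⟩ := (hT j _ (emL_deg hc'.1)).2 (Submodule.subset_span ⟨c, hc', rfl⟩)
    obtain ⟨h2, h3, h4⟩ := isEigen_one.1 h2
    exact ⟨D, ⟨h2, h3⟩, h4⟩
  tate := by
    rintro j z hz ⟨D, hD, h1⟩
    have h2 : z ∈ Submodule.span E ((hodgeOps T E X A N).cyc j) :=
      (hT j z hz).1 ⟨D, isEigen_one.2 ⟨hD.1, hD.2, h1⟩⟩
    refine Submodule.span_mono ?_ h2
    rintro _ ⟨c, hc, rfl⟩
    exact ⟨c, hc, rfl⟩
  line := by
    rintro Δ hΔ c d x hx hd hst
    obtain ⟨D, m, d', y, h1, h2, h3, h4, h5, h6⟩ := hP'.line Δ c d x hx hd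
      (isEigen_one.2 ⟨hΔ.1, hΔ.2, hst⟩)
    exact ⟨y, d', m, D, h1, h2, h3, ⟨h4, h5⟩, h6⟩

/-- **The Mumford-Tate conjecture from one product.** -/
theorem main [TopologicalSpace E] [IsTopologicalRing E] [T2Space E] [IsTopologicalGroup Γ]
    (hψ : TP2.IsPolarisation T X ψ) (hE : Nonempty (E →+* ℂ))
    (hG : IsGalois (cohOps T E ψ) χ ρ) (hA : TP2.IsArithmetic (cohOps T E ψ) χ ρ)
    (hP : HasDualLines E (hodgeOps T E X A N) χ (ρ N) σA σP)
    (hT : TateForProduct (hodgeOps T E X A N) χ σP)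
    (hN : productExponent (finrank T.W.K (T.W.H X)) ≤ N + 1) (n : ℕ) :
    (∀ j, hodgeSpan T E X n j = tateSpan (cohOps T E ψ) χ ρ n j) ∧
    ∀ Δ : Subgroup Γ, Δ.FiniteIndex → ∀ i, IsSemisimple (cohOps T E ψ) ρ Δ n i := by
  have hP' : HasDualLines E (prodOps T E X A N) χ (ρ N) σA σP :=
    ⟨hP.lin, hP.linP, hP.one, hP.ext, hP.line⟩
  obtain ⟨b, hb⟩ : ∃ b, b = finrank T.W.K (T.W.H X) := ⟨_, rfl⟩
  have hN' : exponent (finrank T.W.K (T.W.H X)) ≤ N + 1 := by
    rw [← hb] at hN ⊢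
    rcases Nat.eq_zero_or_pos b with h0 | h0
    · rw [h0, exponent]
      simp
    · refine le_trans ?_ hN
      have h4 : exponent b * 1 ≤ exponent b * b ^ exponent b :=
        Nat.mul_le_mul_left _ (Nat.one_le_pow _ _ h0)
      rw [productExponent]
      omega
  have hH := hit_all' hψ hN' (hit_of hG hP hT)
  have hf : ∀ n j z, (pw X n).IsCyc j z → ∃ Δ : Subgroup Γ, Δ.FiniteIndex ∧ ∀ g ∈ Δ,
      rep hG n g (emL T.W E (T.W.cl (pw X n) z)) =
        twL (χ g) j (emL T.W E (T.W.cl (pw X n) z)) := by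
    intro n j z hz
    obtain ⟨Δ, h1, -, h2⟩ := hH n j _ (T.cyc _ j z hz)
    exact ⟨Δ, h1, fun g hg => h2 g hg⟩
  have hA' := arith (h := hG) (hf := hf) hA
  have key := MO.t_main (G := toG hG hf) (Q := hodgePred (toH T)) hψ.conv respects hA' hE
    (fun Z => le_rfl) (setupH hP' hT) (fun g => hP'.one g)
    ⟨inferInstance, isOpen_univ⟩ (fun K hK => by
      have h2 : (K.topologicalClosure).FiniteIndex :=
        Subgroup.finiteIndex_of_le K.le_topologicalClosure
      have h3 : IsOpen (K.topologicalClosure : Set Γ) :=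
        K.topologicalClosure.isOpen_of_isClosed_of_finiteIndex K.isClosed_topologicalClosure
      exact ⟨K.topologicalClosure, ⟨h2, h3⟩, fun j x hx => inv_closure hA' hx⟩) hN
  refine ⟨fun j => le_antisymm (hit_iff_le.1 (hH n) j) (tate_le_of (key.1 n) j),
    fun Δ hΔ i => ss_iff.2 (key.2 (fun n j c hc => ?_) n Δ hΔ i)⟩
  obtain ⟨Δ, h1, -, h2⟩ := hH n j c hc
  exact ⟨Δ, h1, fun g hg => h2 g hg⟩

end Pool.Agent.N211.TP5
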